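import Pool.Agent.Y403.PM.Loc
import Pool.Agent.NPC.Sat2

/-!
# The instance with at most two nontrivial classes in each partition, and its optimal value
-/

set_option autoImplicit false

namespace Pool.Agent.Y403.PM

open Module Pool.Agent.NPC Pool.Agent.H619R2.PM

abbrev Cl : Type := Lit ℕ × Lit ℕ × Lit ℕ

/-- The second element of a literal (the first one is `4 * x`). -/
def sl (t : Bool) (x : ℕ) : ℕ := if t = true then 4 * x + 1 else 4 * x + 3

theorem sl_eq (t : Bool) (x : ℕ) : sl t x = 4 * x + 1 ∨ sl t x = 4 * x + 3 := by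
  unfold sl
  split_ifs <;> simp

/-- The reward partition of two literals. -/
def cj (n : ℕ) (t : Bool) (x : ℕ) (t' : Bool) (y : ℕ) : List ℕ :=
  tw n (4 * x) (4 * y) (sl t x) (sl t' y)

/-- The reward partition of the negation of a variable. -/
def un (n w : ℕ) : List ℕ := tw n (4 * w) (4 * w + 3) (4 * w) (4 * w + 3)

/-- The partitions of a clause. -/
def cls (n W : ℕ) (c : Cl) : List (List ℕ) :=
  [cj n c.1.1 c.1.2 (!c.2.1.1) c.2.1.2, cj n c.2.1.1 c.2.1.2 (!c.2.2.1) c.2.2.2,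
    cj n c.2.2.1 c.2.2.2 (!c.1.1) c.1.2, cj n true W c.1.1 c.1.2, cj n true W c.2.1.1 c.2.1.2,
    cj n true W c.2.2.1 c.2.2.2, un n W, un n W]

/-- The partitions of a group. -/
def gp (n M x : ℕ) : List (List ℕ) :=
  List.replicate M (tw n (4 * x) (4 * x + 1) (4 * x + 2) (4 * x + 3)) ++
    List.replicate M (tw n (4 * x + 1) (4 * x + 2) (4 * x + 3) (4 * x))

/-- number of groups -/
def ng (φ : List Cl) : ℕ := 4 * φ.length

/-- multiplicity -/
def mu (φ : List Cl) : ℕ := 22 * φ.length + 1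

/-- The partitions of the instance. -/
def inst (φ : List Cl) : List (List ℕ) :=
  List.replicate (5 * mu φ) ((List.range (4 * ng φ)).map (fun u => u)) ++
    (List.replicate (16 * mu φ * φ.length + 8 * φ.length) (List.replicate (4 * ng φ) 0) ++
      ((List.range (ng φ)).flatMap (gp (4 * ng φ) (2 * mu φ)) ++
        φ.zipIdx.flatMap (fun p => cls (4 * ng φ) (3 * φ.length + p.2) p.1)))

/-- The threshold. -/
def thr (φ : List Cl) : ℕ :=
  8 * mu φ * φ.length + 256 * mu φ * φ.length * φ.length + 128 * φ.length * φ.length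

/-! ### Sums over lists -/

theorem sum_ge' {β : Type} (l : List β) (D : β → ℕ) (A B : ℕ)
    (h : ∀ p ∈ l, A ≤ D p + B) : l.length * A ≤ (l.map D).sum + l.length * B := by
  induction l with
  | nil => simp
  | cons p l ih =>
    rw [List.map_cons, List.sum_cons, List.length_cons]
    have h1 := h p List.mem_cons_self
    have h2 := ih fun q hq => h q (List.mem_cons_of_mem _ hq)
    nlinarith

theorem sum_gt' {β : Type} (l : List β) (D : β → ℕ) (A B : ℕ)
    (h : ∀ p ∈ l, A ≤ D p + B) (h' : ∃ p ∈ l, A + 2 ≤ D p + B) :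
    l.length * A + 2 ≤ (l.map D).sum + l.length * B := by
  induction l with
  | nil => simp at h'
  | cons p l ih =>
    rw [List.map_cons, List.sum_cons, List.length_cons]
    have h1 := h p List.mem_cons_self
    have h3 := sum_ge' l D A B fun q hq => h q (List.mem_cons_of_mem _ hq)
    obtain ⟨q, hq, hq'⟩ := h'
    rcases List.mem_cons.1 hq with rfl | hq
    · nlinarith
    · have h2 := ih (fun q hq => h q (List.mem_cons_of_mem _ hq)) ⟨q, hq, hq'⟩
      nlinarith

theorem sum_le' {β : Type} (l : List β) (D : β → ℕ) (A B : ℕ)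
    (h : ∀ p ∈ l, D p + B ≤ A) : (l.map D).sum + l.length * B ≤ l.length * A := by
  induction l with
  | nil => simp
  | cons p l ih =>
    rw [List.map_cons, List.sum_cons, List.length_cons]
    have h1 := h p List.mem_cons_self
    have h2 := ih fun q hq => h q (List.mem_cons_of_mem _ hq)
    nlinarith

theorem sum_map_range (g : ℕ) (f : ℕ → ℕ) :
    ((List.range g).map f).sum = ∑ x : Fin g, f x := by
  rw [← Finset.sum_range]
  induction g with
  | zero => rfl
  | succ g ih =>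
    rw [List.range_succ, List.map_append, List.sum_append, ih, Finset.sum_range_succ]
    simp

theorem cost_flatMap' {β : Type} (n : ℕ) (l : List β) (F : β → List (List ℕ))
    (Y : Setoid (Fin n)) : cost n (l.flatMap F) Y = (l.map (fun p => cost n (F p) Y)).sum := by
  induction l with
  | nil => rfl
  | cons p l ih => rw [List.flatMap_cons, cost_append, ih, List.map_cons, List.sum_cons]

/-! ### Groups -/

section Groups

variable {g : ℕ}

/-- the ranks of the two partitions of a group -/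
noncomputable def RR (Y : Setoid (Fin (4 * g))) (x : Fin g) : ℕ :=
  rho Y (el x 0) (el x 1) (el x 2) (el x 3) + rho Y (el x 1) (el x 2) (el x 3) (el x 0)

theorem dist_g1 (Y : Setoid (Fin (4 * g))) (x : Fin g) :
    dist (part (4 * g) (tw (4 * g) (4 * x) (4 * x + 1) (4 * x + 2) (4 * x + 3))) Y + c Y + 2 =
      4 * g + 2 * rho Y (el x 0) (el x 1) (el x 2) (el x 3) :=
  dist_tw (by omega) (by omega) (by omega) (by omega) (by omega) (by omega) (by omega)
    (by omega) (by omega) (by omega) Y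

theorem dist_g2 (Y : Setoid (Fin (4 * g))) (x : Fin g) :
    dist (part (4 * g) (tw (4 * g) (4 * x + 1) (4 * x + 2) (4 * x + 3) (4 * x))) Y + c Y + 2 =
      4 * g + 2 * rho Y (el x 1) (el x 2) (el x 3) (el x 0) :=
  dist_tw (by omega) (by omega) (by omega) (by omega) (by omega) (by omega) (by omega)
    (by omega) (by omega) (by omega) Y

theorem cost_groups (M : ℕ) (Y : Setoid (Fin (4 * g))) :
    cost (4 * g) ((List.range g).flatMap (gp (4 * g) M)) Y + g * (M * (2 * c Y + 4)) =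
      g * (M * (2 * (4 * g))) + 2 * M * ∑ x : Fin g, RR Y x := by
  rw [cost_flatMap', sum_map_range]
  have h : ∀ x : Fin g, cost (4 * g) (gp (4 * g) M x) Y + M * (2 * c Y + 4) =
      M * (2 * (4 * g)) + 2 * M * RR Y x := by
    intro x
    have h1 := dist_g1 Y x
    have h2 := dist_g2 Y x
    unfold gp
    rw [cost_append, cost_replicate, cost_replicate]
    unfold RR
    have h3 := congrArg (fun t => M * t) h1
    have h4 := congrArg (fun t => M * t) h2
    beta_reduce at h3 h4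
    nlinarith
  have h2 := Finset.sum_congr rfl (fun x (_ : x ∈ (Finset.univ : Finset (Fin g))) => h x)
  rw [Finset.sum_add_distrib, Finset.sum_add_distrib, Finset.sum_const, Finset.sum_const,
    ← Finset.mul_sum, Finset.card_univ, Fintype.card_fin, smul_eq_mul, smul_eq_mul] at h2
  exact h2

theorem ii_LM (Y : Setoid (Fin (4 * g))) (x : Fin g) :
    ∑ i : Fin 4, ii (LM Y (x, i)) = 1 + ii (¬ Y (el x 0) (el x 1)) +
      ii (¬ Y (el x 0) (el x 2) ∧ ¬ Y (el x 1) (el x 2)) +
      ii (¬ Y (el x 0) (el x 3) ∧ ¬ Y (el x 1) (el x 3) ∧ ¬ Y (el x 2) (el x 3)) := by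
  rw [Fin.sum_univ_four]
  have h0 : LM Y (x, 0) := fun j hj => absurd hj (by simp)
  have h1 : LM Y (x, 1) ↔ ¬ Y (el x 0) (el x 1) := by
    unfold LM
    constructor
    · intro h
      exact h 0 (show (0 : Fin 4) < 1 by decide)
    · intro h j hj
      have : j = 0 := by
        change j < (1 : Fin 4) at hj
        omega
      subst this
      exact h
  have h2 : LM Y (x, 2) ↔ ¬ Y (el x 0) (el x 2) ∧ ¬ Y (el x 1) (el x 2) := by
    unfold LM
    constructor
    · intro h
      exact ⟨h 0 (show (0 : Fin 4) < 2 by decide), h 1 (show (1 : Fin 4) < 2 by decide)⟩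
    · intro h j hj
      have : j = 0 ∨ j = 1 := by
        change j < (2 : Fin 4) at hj
        omega
      rcases this with rfl | rfl
      · exact h.1
      · exact h.2
  have h3 : LM Y (x, 3) ↔ ¬ Y (el x 0) (el x 3) ∧ ¬ Y (el x 1) (el x 3) ∧
      ¬ Y (el x 2) (el x 3) := by
    unfold LM
    constructor
    · intro h
      exact ⟨h 0 (show (0 : Fin 4) < 3 by decide), h 1 (show (1 : Fin 4) < 3 by decide),
        h 2 (show (2 : Fin 4) < 3 by decide)⟩
    · intro h j hj
      have : j = 0 ∨ j = 1 ∨ j = 2 := by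
        change j < (3 : Fin 4) at hj
        omega
      rcases this with rfl | rfl | rfl
      · exact h.1
      · exact h.2.1
      · exact h.2.2
  rw [ii_pos h0, h1, h2, h3]

/-- The state of the group `x`. -/
def GSt (Y : Setoid (Fin (4 * g))) (x : Fin g) : Prop :=
  St Y (el x 0) (el x 1) (el x 2) (el x 3)

/-- no class meets two groups -/
def Rsp (Y : Setoid (Fin (4 * g))) : Prop :=
  ∀ (x x' : Fin g) (i i' : Fin 4), Y (el x i) (el x' i') → x = x'

theorem loc_le (Y : Setoid (Fin (4 * g))) (x : Fin g) :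
    5 * ∑ i : Fin 4, ii (LM Y (x, i)) ≤ 6 + 4 * RR Y x := by
  rw [ii_LM]
  exact (local4 Y _ _ _ _).1

theorem loc_lt (Y : Setoid (Fin (4 * g))) (x : Fin g) (h : ¬ GSt Y x) :
    5 * ∑ i : Fin 4, ii (LM Y (x, i)) + 1 ≤ 6 + 4 * RR Y x := by
  rw [ii_LM]
  exact (local4 Y _ _ _ _).2 h

theorem sum_loc_le (Y : Setoid (Fin (4 * g))) :
    5 * ∑ x : Fin g, ∑ i : Fin 4, ii (LM Y (x, i)) ≤ 6 * g + 4 * ∑ x : Fin g, RR Y x := by
  rw [Finset.mul_sum, Finset.mul_sum]
  have h := Finset.sum_le_sum (fun x (_ : x ∈ (Finset.univ : Finset (Fin g))) => loc_le Y x)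
  rw [Finset.sum_add_distrib, Finset.sum_const, Finset.card_univ, Fintype.card_fin,
    smul_eq_mul, mul_comm g 6] at h
  exact h

theorem main_le (Y : Setoid (Fin (4 * g))) :
    5 * c Y ≤ 6 * g + 4 * ∑ x : Fin g, RR Y x :=
  (Nat.mul_le_mul_left 5 (c_le_sum Y)).trans (sum_loc_le Y)

theorem main_lt (Y : Setoid (Fin (4 * g))) (h : ¬ (Rsp Y ∧ ∀ x, GSt Y x)) :
    5 * c Y + 1 ≤ 6 * g + 4 * ∑ x : Fin g, RR Y x := by
  rw [not_and_or] at h
  rcases h with h | h
  · unfold Rsp at h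
    push Not at h
    obtain ⟨x, x', i, i', hY, hne⟩ := h
    have h1 := c_lt_sum Y hne hY
    have h2 := sum_loc_le Y
    omega
  · push Not at h
    obtain ⟨x, hx⟩ := h
    have h1 := c_le_sum Y
    have h2 : 5 * ∑ x : Fin g, ∑ i : Fin 4, ii (LM Y (x, i)) + 1 ≤
        6 * g + 4 * ∑ x : Fin g, RR Y x := by
      have k := Finset.sum_lt_sum (fun x (_ : x ∈ (Finset.univ : Finset (Fin g))) => loc_le Y x)
        ⟨x, Finset.mem_univ _, loc_lt Y x hx⟩
      rw [Finset.sum_add_distrib, Finset.sum_const, Finset.card_univ, Fintype.card_fin,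
        smul_eq_mul, mul_comm g 6, ← Finset.mul_sum, ← Finset.mul_sum] at k
      omega
    omega

end Groups

/-! ### Clauses -/

section Clauses

variable {g : ℕ}

/-- first element of a group -/
def va {x : ℕ} (h : x < g) : Fin (4 * g) := ⟨4 * x, by omega⟩

/-- element of a literal -/
def vs (t : Bool) {x : ℕ} (h : x < g) : Fin (4 * g) :=
  ⟨sl t x, by rcases sl_eq t x with e | e <;> omega⟩

theorem va_eq {x : ℕ} (h : x < g) : (va h : Fin (4 * g)) = el ⟨x, h⟩ 0 := rfl

theorem vs_eq (t : Bool) {x : ℕ} (h : x < g) :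
    (vs t h : Fin (4 * g)) = el ⟨x, h⟩ (if t = true then 1 else 3) := by
  apply Fin.ext
  cases t <;> simp [vs, sl, el]

theorem dist_cj (Y : Setoid (Fin (4 * g))) (t t' : Bool) {x y : ℕ} (hx : x < g) (hy : y < g)
    (hxy : x ≠ y) :
    dist (part (4 * g) (cj (4 * g) t x t' y)) Y + c Y + 2 =
      4 * g + 2 * rho Y (va hx) (va hy) (vs t hx) (vs t' hy) := by
  unfold cj
  have e1 := sl_eq t x
  have e2 := sl_eq t' y
  exact dist_tw (by omega) (by omega) (by omega) (by omega) (by omega) (by omega) (by omega)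
    (by omega) (by omega) (by omega) Y

theorem dist_un (Y : Setoid (Fin (4 * g))) {w : ℕ} (hw : w < g) :
    dist (part (4 * g) (un (4 * g) w)) Y + c Y + 1 =
      4 * g + 2 * ii (¬ Y (va hw) (vs false hw)) := by
  unfold un
  exact dist_tw1 (by omega) (by omega) (by omega) Y

theorem rho_le {Y : Setoid (Fin (4 * g))} {p q r s : Fin (4 * g)} {b : Bool}
    (h : b = true → Y r p ∧ Y s q) : rho Y p q r s + b.toNat ≤ 2 := by
  unfold rho
  have h1 := ii_le (¬ Y p q)
  cases b with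
  | false =>
    have h2 := ii_le (¬ (Y r s ∨ (Y r p ∧ Y s q) ∨ (Y r q ∧ Y s p)))
    simp only [Bool.toNat_false]
    omega
  | true =>
    rw [ii_neg (P := ¬ (Y r s ∨ (Y r p ∧ Y s q) ∨ (Y r q ∧ Y s p)))
      (not_not.2 (Or.inr (Or.inl (h rfl))))]
    simp only [Bool.toNat_true]
    omega

theorem rho_ge {Y : Setoid (Fin (4 * g))} {p q r s : Fin (4 * g)} {b : Bool}
    (h1 : ¬ Y p q) (h2 : ¬ Y r s) (h3 : ¬ Y r q) (h : Y r p → Y s q → b = true) :
    2 ≤ rho Y p q r s + b.toNat := by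
  unfold rho
  rw [ii_pos h1]
  cases b with
  | false =>
    rw [ii_pos]
    · simp
    · rintro (k | ⟨k, k'⟩ | ⟨k, _⟩)
      · exact h2 k
      · exact absurd (h k k') (by simp)
      · exact h3 k
  | true =>
    simp only [Bool.toNat_true]
    omega

/-- Rewards of a clause: `e₁, e₂, e₃` are the values of the literals. -/
def rew (e1 e2 e3 w : Bool) : ℕ :=
  (e1 && !e2).toNat + (e2 && !e3).toNat + (e3 && !e1).toNat + (w && e1).toNat + (w && e2).toNat +
    (w && e3).toNat + 2 * (!w).toNat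

theorem rew_le : ∀ e1 e2 e3 w : Bool, rew e1 e2 e3 w ≤ 3 := by decide

theorem rew_le' : ∀ e1 e2 e3 w : Bool, e1 = false → e2 = false → e3 = false →
    rew e1 e2 e3 w ≤ 2 := by decide

theorem rew_ge : ∀ e1 e2 e3 : Bool, (e1 = true ∨ e2 = true ∨ e3 = true) →
    3 ≤ rew e1 e2 e3 (e1 && e2 && e3) := by decide

variable (Y : Setoid (Fin (4 * g))) (τ : ℕ → Bool) {W : ℕ} {cc : Cl}
  (h1 : cc.1.2 < g) (h2 : cc.2.1.2 < g) (h3 : cc.2.2.2 < g) (hW : W < g)
  (n12 : cc.1.2 ≠ cc.2.1.2) (n13 : cc.1.2 ≠ cc.2.2.2) (n23 : cc.2.1.2 ≠ cc.2.2.2)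
  (w1 : W ≠ cc.1.2) (w2 : W ≠ cc.2.1.2) (w3 : W ≠ cc.2.2.2)

include h1 h2 h3 hW n12 n13 n23 w1 w2 w3

theorem cost_cls :
    cost (4 * g) (cls (4 * g) W cc) Y + 8 * c Y + 14 = 8 * (4 * g) +
      2 * (rho Y (va h1) (va h2) (vs cc.1.1 h1) (vs (!cc.2.1.1) h2) +
        rho Y (va h2) (va h3) (vs cc.2.1.1 h2) (vs (!cc.2.2.1) h3) +
        rho Y (va h3) (va h1) (vs cc.2.2.1 h3) (vs (!cc.1.1) h1) +
        rho Y (va hW) (va h1) (vs true hW) (vs cc.1.1 h1) +
        rho Y (va hW) (va h2) (vs true hW) (vs cc.2.1.1 h2) +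
        rho Y (va hW) (va h3) (vs true hW) (vs cc.2.2.1 h3)) +
      4 * ii (¬ Y (va hW) (vs false hW)) := by
  have d1 := dist_cj Y cc.1.1 (!cc.2.1.1) h1 h2 n12
  have d2 := dist_cj Y cc.2.1.1 (!cc.2.2.1) h2 h3 n23
  have d3 := dist_cj Y cc.2.2.1 (!cc.1.1) h3 h1 n13.symm
  have d4 := dist_cj Y true cc.1.1 hW h1 w1
  have d5 := dist_cj Y true cc.2.1.1 hW h2 w2
  have d6 := dist_cj Y true cc.2.2.1 hW h3 w3
  have d7 := dist_un Y hW
  unfold cost cls
  simp only [List.map_cons, List.map_nil, List.sum_cons, List.sum_nil]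
  omega

theorem cost_cls_le (hab : ∀ (t : Bool) {x : ℕ} (hx : x < g), τ x = t → Y (vs t hx) (va hx))
    (hsat : Tr τ cc)
    (hw : τ W = ((τ cc.1.2 == cc.1.1) && (τ cc.2.1.2 == cc.2.1.1) && (τ cc.2.2.2 == cc.2.2.1))) :
    cost (4 * g) (cls (4 * g) W cc) Y + 8 * c Y ≤ 8 * (4 * g) + 8 := by
  have k := cost_cls Y h1 h2 h3 hW n12 n13 n23 w1 w2 w3
  have aux : ∀ (t t' : Bool) {x y : ℕ} (hx : x < g) (hy : y < g),
      rho Y (va hx) (va hy) (vs t hx) (vs t' hy) + ((τ x == t) && (τ y == t')).toNat ≤ 2 := by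
    intro t t' x y hx hy
    apply rho_le
    intro h
    rw [Bool.and_eq_true, beq_iff_eq, beq_iff_eq] at h
    exact ⟨hab t hx h.1, hab t' hy h.2⟩
  have a1 := aux cc.1.1 (!cc.2.1.1) h1 h2
  have a2 := aux cc.2.1.1 (!cc.2.2.1) h2 h3
  have a3 := aux cc.2.2.1 (!cc.1.1) h3 h1
  have a4 := aux true cc.1.1 hW h1
  have a5 := aux true cc.2.1.1 hW h2
  have a6 := aux true cc.2.2.1 hW h3
  have a7 : ii (¬ Y (va hW) (vs false hW)) + (!(τ W)).toNat ≤ 1 := by
    cases hτ : τ W with
    | false =>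
      rw [ii_neg (not_not.2 (Y.symm' (hab false hW hτ)))]
      simp
    | true =>
      have := ii_le (¬ Y (va hW) (vs false hW))
      simpa using this
  have e : ∀ (x y : Bool), (x == !y) = !(x == y) := by decide
  have e' : ∀ x : Bool, (x == true) = x := by decide
  simp only [e, e'] at a1 a2 a3 a4 a5 a6
  have key := rew_ge (τ cc.1.2 == cc.1.1) (τ cc.2.1.2 == cc.2.1.1) (τ cc.2.2.2 == cc.2.2.1)
    (by simpa [Tr] using hsat)
  rw [← hw] at key
  unfold rew at key
  omega

theorem cost_cls_ge (hR : Rsp Y) (hab : ∀ (t : Bool) {x : ℕ} (hx : x < g),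
      Y (vs t hx) (va hx) → τ x = t) :
    8 * (4 * g) + 8 ≤ cost (4 * g) (cls (4 * g) W cc) Y + 8 * c Y ∧
      (¬ Tr τ cc → 8 * (4 * g) + 8 + 2 ≤ cost (4 * g) (cls (4 * g) W cc) Y + 8 * c Y) := by
  have k := cost_cls Y h1 h2 h3 hW n12 n13 n23 w1 w2 w3
  have aux : ∀ (t t' : Bool) {x y : ℕ} (hx : x < g) (hy : y < g), x ≠ y →
      2 ≤ rho Y (va hx) (va hy) (vs t hx) (vs t' hy) + ((τ x == t) && (τ y == t')).toNat := by
    intro t t' x y hx hy hxy
    have hne : (⟨x, hx⟩ : Fin g) ≠ ⟨y, hy⟩ := by simpa [Fin.ext_iff] using hxy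
    apply rho_ge
    · rw [va_eq, va_eq]
      exact fun h => hne (hR _ _ _ _ h)
    · rw [vs_eq, vs_eq]
      exact fun h => hne (hR _ _ _ _ h)
    · rw [vs_eq, va_eq]
      exact fun h => hne (hR _ _ _ _ h)
    · intro k1 k2
      rw [Bool.and_eq_true, beq_iff_eq, beq_iff_eq]
      exact ⟨hab t hx k1, hab t' hy k2⟩
  have a1 := aux cc.1.1 (!cc.2.1.1) h1 h2 n12
  have a2 := aux cc.2.1.1 (!cc.2.2.1) h2 h3 n23
  have a3 := aux cc.2.2.1 (!cc.1.1) h3 h1 n13.symm
  have a4 := aux true cc.1.1 hW h1 w1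
  have a5 := aux true cc.2.1.1 hW h2 w2
  have a6 := aux true cc.2.2.1 hW h3 w3
  have a7 : 1 ≤ ii (¬ Y (va hW) (vs false hW)) + (!(τ W)).toNat := by
    by_cases hY : Y (va hW) (vs false hW)
    · rw [hab false hW (Y.symm' hY)]
      simp
    · rw [ii_pos hY]
      omega
  have e : ∀ (x y : Bool), (x == !y) = !(x == y) := by decide
  have e' : ∀ x : Bool, (x == true) = x := by decide
  simp only [e, e'] at a1 a2 a3 a4 a5 a6
  constructor
  · have key := rew_le (τ cc.1.2 == cc.1.1) (τ cc.2.1.2 == cc.2.1.1) (τ cc.2.2.2 == cc.2.2.1)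
      (τ W)
    unfold rew at key
    omega
  · intro hns
    unfold Tr at hns
    push Not at hns
    have b1 : (τ cc.1.2 == cc.1.1) = false := by simpa using hns.1
    have b2 : (τ cc.2.1.2 == cc.2.1.1) = false := by simpa using hns.2.1
    have b3 : (τ cc.2.2.2 == cc.2.2.1) = false := by simpa using hns.2.2
    have key := rew_le' _ _ _ (τ W) b1 b2 b3
    unfold rew at key
    omega

end Clauses

end Pool.Agent.Y403.PM
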