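import Pool.Agent.Y403.PM.Two

/-!
# The local inequality of a group of four elements
-/

set_option autoImplicit false

namespace Pool.Agent.Y403.PM

open Module Pool.Agent.H619R2.PM

theorem loc_bool : ∀ ab ac ad bc bd cd : Bool,
    (ab = true → bc = true → ac = true) → (ab = true → ac = true → bc = true) →
    (ac = true → bc = true → ab = true) →
    (ab = true → bd = true → ad = true) → (ab = true → ad = true → bd = true) →
    (ad = true → bd = true → ab = true) →
    (ac = true → cd = true → ad = true) → (ac = true → ad = true → cd = true) →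
    (ad = true → cd = true → ac = true) →
    (bc = true → cd = true → bd = true) → (bc = true → bd = true → cd = true) →
    (bd = true → cd = true → bc = true) →
    5 * (1 + (!ab).toNat + (!ac && !bc).toNat + (!ad && (!bd && !cd)).toNat) ≤
      6 + 4 * (((!ab).toNat + (!(cd || (ac && bd || bc && ad))).toNat) +
        ((!bc).toNat + (!(ad || (bd && ac || cd && ab))).toNat)) ∧
    (((ab && (cd && !ac)) || (bc && (ad && !ac))) = false →
      5 * (1 + (!ab).toNat + (!ac && !bc).toNat + (!ad && (!bd && !cd)).toNat) + 1 ≤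
      6 + 4 * (((!ab).toNat + (!(cd || (ac && bd || bc && ad))).toNat) +
        ((!bc).toNat + (!(ad || (bd && ac || cd && ab))).toNat))) := by
  intro ab ac ad bc bd cd
  cases ab <;> cases ac <;> cases ad <;> cases bc <;> cases bd <;> cases cd <;> simp

open Classical in
theorem ii_eq (P : Prop) : ii P = (decide P).toNat := by
  by_cases h : P
  · rw [ii_pos h]; simp [h]
  · rw [ii_neg h]; simp [h]

variable {α : Type}

/-- The two good states of a group. -/
def St (Y : Setoid α) (a b c d : α) : Prop :=
  (Y a b ∧ Y c d ∧ ¬ Y a c) ∨ (Y b c ∧ Y a d ∧ ¬ Y a c)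

theorem local4 (Y : Setoid α) (a b c d : α) :
    5 * (1 + ii (¬ Y a b) + ii (¬ Y a c ∧ ¬ Y b c) + ii (¬ Y a d ∧ ¬ Y b d ∧ ¬ Y c d)) ≤
      6 + 4 * (rho Y a b c d + rho Y b c d a) ∧
    (¬ St Y a b c d →
      5 * (1 + ii (¬ Y a b) + ii (¬ Y a c ∧ ¬ Y b c) + ii (¬ Y a d ∧ ¬ Y b d ∧ ¬ Y c d)) + 1 ≤
        6 + 4 * (rho Y a b c d + rho Y b c d a)) := by
  classical
  have e1 : ∀ u v, Y u v ↔ Y v u := fun u v => ⟨Y.symm', Y.symm'⟩
  have t : ∀ {u v w}, Y u v → Y v w → Y u w := fun h h' => Y.trans' h h'
  have s : ∀ {u v}, Y u v → Y v u := fun h => Y.symm' h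
  have h := loc_bool (decide (Y a b)) (decide (Y a c)) (decide (Y a d)) (decide (Y b c))
    (decide (Y b d)) (decide (Y c d))
    (by simpa using fun h h' => t h h') (by simpa using fun h h' => t (s h) h')
    (by simpa using fun h h' => t h (s h'))
    (by simpa using fun h h' => t h h') (by simpa using fun h h' => t (s h) h')
    (by simpa using fun h h' => t h (s h'))
    (by simpa using fun h h' => t h h') (by simpa using fun h h' => t (s h) h')
    (by simpa using fun h h' => t h (s h'))
    (by simpa using fun h h' => t h h') (by simpa using fun h h' => t (s h) h')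
    (by simpa using fun h h' => t h (s h'))
  unfold rho St
  rw [e1 c a, e1 d b, e1 c b, e1 d a, e1 d c]
  simp only [ii_eq, Bool.decide_and, Bool.decide_or, decide_not]
  refine ⟨h.1, fun hn => h.2 ?_⟩
  rw [Bool.eq_false_iff]
  intro h3
  apply hn
  simpa using h3

end Pool.Agent.Y403.PM
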