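import Pool.Agent.Y403.PM.Val
import Pool.Agent.H619R2.PM.Final

/-!
# The reduction is computable in polynomial time
-/

set_option autoImplicit false

namespace Pool.Agent.Y403.PM

open Pool.Agent.NPC Pool.Agent.H619R2.PM

@[fun_prop]
theorem Poly_lab2 {α : Type} [TEnc α] {p q r s u : α → ℕ} (hp : NPC.Poly p) (hq : NPC.Poly q)
    (hr : NPC.Poly r) (hs : NPC.Poly s) (hu : NPC.Poly u) :
    NPC.Poly (fun a => lab2 (p a) (q a) (r a) (s a) (u a)) := by
  unfold lab2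
  fun_prop

@[fun_prop]
theorem Poly_sl {α : Type} [TEnc α] {t : α → Bool} {u : α → ℕ} (ht : NPC.Poly t)
    (hu : NPC.Poly u) : NPC.Poly (fun a => sl (t a) (u a)) := by
  unfold sl
  fun_prop

/-- the ground set -/
def rg (φ : List Cl) : List ℕ := List.range (4 * ng φ)

theorem uPoly_len : UPoly (fun φ : List Cl => φ.length) := UPoly.length NPC.Poly.id

theorem uPoly_ng : UPoly ng := UPoly.mul (UPoly.const 4) uPoly_len

theorem uPoly_mu : UPoly mu := UPoly.add (UPoly.mul (UPoly.const 22) uPoly_len) (UPoly.const 1)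

@[fun_prop]
theorem Poly_rg : NPC.Poly rg := UPoly.range (UPoly.mul (UPoly.const 4) uPoly_ng)

@[fun_prop]
theorem Poly_mu : NPC.Poly mu := uPoly_mu.toPoly

theorem poly_rng : NPC.Poly (fun φ : List Cl => List.range (ng φ)) := UPoly.range uPoly_ng

theorem poly_rM : NPC.Poly (fun φ : List Cl => List.range (2 * mu φ)) :=
  UPoly.range (UPoly.mul (UPoly.const 2) uPoly_mu)

theorem poly_r5 : NPC.Poly (fun φ : List Cl => List.range (5 * mu φ)) :=
  UPoly.range (UPoly.mul (UPoly.const 5) uPoly_mu)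

theorem poly_rE : NPC.Poly (fun φ : List Cl =>
    List.range (16 * mu φ * φ.length + 8 * φ.length)) :=
  UPoly.range (UPoly.add (UPoly.mul (UPoly.mul (UPoly.const 16) uPoly_mu) uPoly_len)
    (UPoly.mul (UPoly.const 8) uPoly_len))

theorem poly_gp : NPC.Poly (fun a : List Cl × ℕ => gp (4 * ng a.1) (2 * mu a.1) a.2) := by
  have h1 : NPC.Poly (fun a : List Cl × ℕ =>
      (rg a.1).map (lab2 (4 * a.2) (4 * a.2 + 1) (4 * a.2 + 2) (4 * a.2 + 3))) := by fun_prop
  have h2 : NPC.Poly (fun a : List Cl × ℕ =>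
      (rg a.1).map (lab2 (4 * a.2 + 1) (4 * a.2 + 2) (4 * a.2 + 3) (4 * a.2))) := by fun_prop
  exact NPC.Poly.append (poly_replicate' (poly_rM.comp (by fun_prop)) h1)
    (poly_replicate' (poly_rM.comp (by fun_prop)) h2)

theorem poly_cls : NPC.Poly (fun a : List Cl × (Cl × ℕ) =>
    cls (4 * ng a.1) (3 * a.1.length + a.2.2) a.2.1) := by
  have h : NPC.Poly (fun a : List Cl × (Cl × ℕ) =>
      [(rg a.1).map (lab2 (4 * a.2.1.1.2) (4 * a.2.1.2.1.2) (sl a.2.1.1.1 a.2.1.1.2)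
          (sl (!a.2.1.2.1.1) a.2.1.2.1.2)),
        (rg a.1).map (lab2 (4 * a.2.1.2.1.2) (4 * a.2.1.2.2.2) (sl a.2.1.2.1.1 a.2.1.2.1.2)
          (sl (!a.2.1.2.2.1) a.2.1.2.2.2)),
        (rg a.1).map (lab2 (4 * a.2.1.2.2.2) (4 * a.2.1.1.2) (sl a.2.1.2.2.1 a.2.1.2.2.2)
          (sl (!a.2.1.1.1) a.2.1.1.2)),
        (rg a.1).map (lab2 (4 * (3 * a.1.length + a.2.2)) (4 * a.2.1.1.2)
          (sl true (3 * a.1.length + a.2.2)) (sl a.2.1.1.1 a.2.1.1.2)),
        (rg a.1).map (lab2 (4 * (3 * a.1.length + a.2.2)) (4 * a.2.1.2.1.2)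
          (sl true (3 * a.1.length + a.2.2)) (sl a.2.1.2.1.1 a.2.1.2.1.2)),
        (rg a.1).map (lab2 (4 * (3 * a.1.length + a.2.2)) (4 * a.2.1.2.2.2)
          (sl true (3 * a.1.length + a.2.2)) (sl a.2.1.2.2.1 a.2.1.2.2.2)),
        (rg a.1).map (lab2 (4 * (3 * a.1.length + a.2.2)) (4 * (3 * a.1.length + a.2.2) + 3)
          (4 * (3 * a.1.length + a.2.2)) (4 * (3 * a.1.length + a.2.2) + 3)),
        (rg a.1).map (lab2 (4 * (3 * a.1.length + a.2.2)) (4 * (3 * a.1.length + a.2.2) + 3)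
          (4 * (3 * a.1.length + a.2.2)) (4 * (3 * a.1.length + a.2.2) + 3))]) := by
    fun_prop
  exact h

theorem poly_inst : NPC.Poly inst := by
  unfold inst
  refine NPC.Poly.append (poly_replicate' poly_r5 (NPC.Poly.map (F := fun _ u => u) Poly_rg
        (NPC.Poly.snd NPC.Poly.id)))
    (NPC.Poly.append (poly_replicate' poly_rE (poly_replicate' Poly_rg (NPC.Poly.const 0)))
      (NPC.Poly.append (NPC.Poly.flatMap (F := fun (φ : List Cl) x => gp (4 * ng φ) (2 * mu φ) x)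
        poly_rng poly_gp) ?_))
  exact NPC.Poly.flatMap (F := fun (φ : List Cl) (p : Cl × ℕ) =>
    cls (4 * ng φ) (3 * φ.length + p.2) p.1) (NPC.Poly.zipIdx NPC.Poly.id) poly_cls

theorem poly_thr : NPC.Poly thr := by
  unfold thr
  fun_prop

end Pool.Agent.Y403.PM
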