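import Pool.Agent.H619R2.PM.Main

/-!
# Partitions with two classes of size two; counting classes by local minima
-/

set_option autoImplicit false

namespace Pool.Agent.Y403.PM

open Module Pool.Agent.H619R2.PM

open Classical in
/-- The number `1` if `P` holds, otherwise `0`. -/
noncomputable def ii (P : Prop) : ℕ := if P then 1 else 0

theorem ii_pos {P : Prop} (h : P) : ii P = 1 := if_pos h

theorem ii_neg {P : Prop} (h : ¬ P) : ii P = 0 := if_neg h

theorem ii_le (P : Prop) : ii P ≤ 1 := by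
  by_cases h : P
  · rw [ii_pos h]
  · rw [ii_neg h]; omega

section Dist

variable {α : Type} [Finite α]

omit [Finite α] in
theorem merge_self {X : Setoid α} {a b : α} (h : X a b) : merge X a b = X :=
  le_antisymm (merge_le le_rfl h) (le_merge X a b)

theorem c_eq_merge (X : Setoid α) (a b : α) : c X = c (merge X a b) + ii (¬ X a b) := by
  by_cases h : X a b
  · rw [merge_self h, ii_neg (not_not.2 h), Nat.add_zero]
  · rw [ii_pos h, c_merge h]

/-- The rank of two edges after contracting the classes of `Y`. -/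
noncomputable def rho (Y : Setoid α) (p q r s : α) : ℕ :=
  ii (¬ Y p q) + ii (¬ (Y r s ∨ (Y r p ∧ Y s q) ∨ (Y r q ∧ Y s p)))

theorem c_sup_two {X : Setoid α} {p q r s : α} (hX : V X = K p q ⊓ K r s) (Y : Setoid α) :
    c Y = c (X ⊔ Y) + rho Y p q r s := by
  have h1 : c (X ⊔ Y) = c (merge (merge Y p q) r s) := by
    unfold c
    rw [V_sup, hX, V_merge, V_merge, inf_comm (K p q ⊓ K r s), ← inf_assoc]
  have h2 := c_eq_merge Y p q
  have h3 := c_eq_merge (merge Y p q) r s
  rw [merge_apply] at h3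
  unfold rho
  omega

theorem dist_two {X : Setoid α} {p q r s : α} (hX : V X = K p q ⊓ K r s)
    (h1 : p ≠ q) (h2 : r ≠ s) (h3 : r ≠ p) (h4 : r ≠ q) (Y : Setoid α) :
    dist X Y + c Y + 2 = Nat.card α + 2 * rho Y p q r s := by
  have k1 := dist_eq X Y
  have k2 := c_sup_two hX Y
  have k3 := c_sup_two hX ⊥
  have k4 : rho (⊥ : Setoid α) p q r s = 2 := by
    unfold rho
    rw [ii_pos (show ¬ (⊥ : Setoid α) p q from h1), ii_pos]
    rintro (h | ⟨h, _⟩ | ⟨h, _⟩)
    · exact h2 h
    · exact h3 h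
    · exact h4 h
  rw [sup_bot_eq, c_bot, k4] at k3
  omega

theorem dist_one {X : Setoid α} {p q : α} (hX : V X = K p q ⊓ K p q)
    (h1 : p ≠ q) (Y : Setoid α) :
    dist X Y + c Y + 1 = Nat.card α + 2 * ii (¬ Y p q) := by
  have k1 := dist_eq X Y
  have k2 := c_sup_two hX Y
  have k3 := c_sup_two hX ⊥
  have e : ∀ Y : Setoid α, rho Y p q p q = ii (¬ Y p q) := by
    intro Y
    unfold rho
    rw [ii_neg (P := ¬ (Y p q ∨ (Y p p ∧ Y q q) ∨ (Y p q ∧ Y q p)))
      (not_not.2 (Or.inr (Or.inl ⟨Y.refl' p, Y.refl' q⟩))), Nat.add_zero]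
  rw [e] at k2 k3
  rw [ii_pos (show ¬ (⊥ : Setoid α) p q from h1), sup_bot_eq, c_bot] at k3
  omega

theorem c_top [Nonempty α] : c (⊤ : Setoid α) = 1 := by
  rw [c_eq_card, Nat.card_eq_one_iff_unique]
  obtain ⟨a⟩ := ‹Nonempty α›
  refine ⟨⟨?_⟩, ⟨Quotient.mk _ a⟩⟩
  intro x y
  induction x using Quotient.ind with | _ x =>
  induction y using Quotient.ind with | _ y =>
  exact Quotient.sound trivial

theorem dist_top [Nonempty α] (Y : Setoid α) : dist ⊤ Y + 1 = c Y := by
  have k1 := dist_eq ⊤ Y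
  rw [top_sup_eq, c_top] at k1
  omega

theorem dist_bot' (Y : Setoid α) : dist ⊥ Y + c Y = Nat.card α := by
  have k1 := dist_eq ⊥ Y
  rw [bot_sup_eq, c_bot] at k1
  omega

end Dist

/-! ### Label vectors -/

/-- labels: `q` gets the label of `p` and `s` the label of `r` -/
def lab2 (p q r s u : ℕ) : ℕ := if u = q then p else if u = s then r else u

/-- label vector of the partition with the classes `{p, q}` and `{r, s}` and singletons -/
def tw (n p q r s : ℕ) : List ℕ := (List.range n).map (lab2 p q r s)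

theorem V_tw {n p q r s : ℕ} (hp : p < n) (hq : q < n) (hr : r < n) (hs : s < n)
    (h1 : p ≠ q) (h2 : p ≠ s) (h3 : r ≠ q) (h4 : r ≠ s) (h5 : q = s → p = r) :
    V (part n (tw n p q r s)) = K (⟨p, hp⟩ : Fin n) ⟨q, hq⟩ ⊓ K ⟨r, hr⟩ ⟨s, hs⟩ := by
  have hL : ∀ u < n, lab2 p q r s u < n := by
    intro u hu
    unfold lab2
    split_ifs <;> omega
  have hLL : ∀ u < n, lab2 p q r s (lab2 p q r s u) = lab2 p q r s u := by
    intro u hu
    unfold lab2
    split_ifs <;> omega
  ext f
  rw [tw, mem_V_part hL hLL, Submodule.mem_inf, mem_K, mem_K]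
  constructor
  · intro h
    constructor
    · rw [h ⟨q, hq⟩]
      congr 1
      apply Fin.ext
      simp [lab2]
    · rw [h ⟨s, hs⟩]
      congr 1
      apply Fin.ext
      simp only [lab2]
      split_ifs <;> omega
  · rintro ⟨k1, k2⟩ u
    by_cases hu : (u : ℕ) = q
    · have e : u = ⟨q, hq⟩ := Fin.ext hu
      rw [e, ← k1]
      congr 1
      apply Fin.ext
      simp [lab2]
    · by_cases hu2 : (u : ℕ) = s
      · have e : u = ⟨s, hs⟩ := Fin.ext hu2
        rw [e, ← k2]
        congr 1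
        apply Fin.ext
        have : s ≠ q := by omega
        simp [lab2, this]
      · congr 1
        apply Fin.ext
        simp [lab2, hu, hu2]

theorem dist_tw {n p q r s : ℕ} (hp : p < n) (hq : q < n) (hr : r < n) (hs : s < n)
    (h1 : p ≠ q) (h2 : p ≠ s) (h3 : r ≠ q) (h4 : r ≠ s) (h6 : r ≠ p) (h7 : q ≠ s)
    (Y : Setoid (Fin n)) :
    dist (part n (tw n p q r s)) Y + c Y + 2 = n + 2 * rho Y ⟨p, hp⟩ ⟨q, hq⟩ ⟨r, hr⟩ ⟨s, hs⟩ := by
  have h := dist_two (V_tw hp hq hr hs h1 h2 h3 h4 (fun h => absurd h h7))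
    (by simpa [Fin.ext_iff] using h1) (by simpa [Fin.ext_iff] using h4)
    (by simpa [Fin.ext_iff] using h6) (by simpa [Fin.ext_iff] using h3) Y
  rwa [Nat.card_eq_fintype_card, Fintype.card_fin] at h

theorem dist_tw1 {n p q : ℕ} (hp : p < n) (hq : q < n) (h1 : p ≠ q) (Y : Setoid (Fin n)) :
    dist (part n (tw n p q p q)) Y + c Y + 1 = n + 2 * ii (¬ Y ⟨p, hp⟩ ⟨q, hq⟩) := by
  have h := dist_one (V_tw hp hq hp hq h1 h1 h1 h1 (fun _ => rfl))
    (by simpa [Fin.ext_iff] using h1) Y
  rwa [Nat.card_eq_fintype_card, Fintype.card_fin] at h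

theorem part_zero (n : ℕ) : part n (List.replicate n 0) = ⊤ := by
  apply Setoid.ext
  intro u v
  constructor
  · intro _
    trivial
  · intro _
    change (List.replicate n 0).getD u 0 = (List.replicate n 0).getD v 0
    rw [List.getD_eq_getElem _ _ (by simp), List.getD_eq_getElem _ _ (by simp)]
    simp

/-! ### Counting classes -/

section Count

variable {g : ℕ}

/-- The `i`-th element of the group `x`. -/
def el (x : Fin g) (i : Fin 4) : Fin (4 * g) := ⟨4 * x + i, by omega⟩

/-- The element is the first one of its class in its group. -/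
def LM (Y : Setoid (Fin (4 * g))) (p : Fin g × Fin 4) : Prop :=
  ∀ j < p.2, ¬ Y (el p.1 j) (el p.1 p.2)

open Classical in
theorem card_LM (Y : Setoid (Fin (4 * g))) :
    Fintype.card {p : Fin g × Fin 4 // LM Y p} = ∑ x : Fin g, ∑ i : Fin 4, ii (LM Y (x, i)) := by
  rw [Fintype.card_subtype, Finset.card_filter, Fintype.sum_prod_type]
  rfl

theorem exists_LM (Y : Setoid (Fin (4 * g))) (x : Fin g) (i : Fin 4) :
    ∃ j, LM Y (x, j) ∧ Y (el x j) (el x i) := by
  induction i using Fin.induction with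
  | zero => exact ⟨0, fun j hj => absurd hj (by simp), Y.refl' _⟩
  | succ i _ =>
    by_cases h : LM Y (x, i.succ)
    · exact ⟨_, h, Y.refl' _⟩
    · unfold LM at h
      push Not at h
      obtain ⟨j, hj, hY⟩ := h
      -- take the least such element
      classical
      let s : Finset (Fin 4) := Finset.univ.filter (fun j => Y (el x j) (el x i.succ))
      have hs : s.Nonempty := ⟨j, by simp [s]; exact hY⟩
      refine ⟨s.min' hs, ?_, ?_⟩
      · intro k hk hYk
        have h1 := Finset.min'_mem s hs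
        have h2 : k ∈ s := by
          simp only [s, Finset.mem_filter, Finset.mem_univ, true_and] at h1 ⊢
          exact Y.trans' hYk h1
        exact absurd (Finset.min'_le s k h2) (not_le.2 hk)
      · have h1 := Finset.min'_mem s hs
        simpa [s] using h1

theorem exists_el (u : Fin (4 * g)) : ∃ (x : Fin g) (i : Fin 4), u = el x i :=
  ⟨⟨u / 4, by omega⟩, ⟨u % 4, by omega⟩, Fin.ext (by simp only [el]; omega)⟩

/-- The map from local minima to classes. -/
def toQ (Y : Setoid (Fin (4 * g))) (p : {p : Fin g × Fin 4 // LM Y p}) : Quotient Y :=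
  Quotient.mk Y (el p.1.1 p.1.2)

theorem toQ_surjective (Y : Setoid (Fin (4 * g))) : Function.Surjective (toQ Y) := by
  intro q
  induction q using Quotient.ind with | _ u =>
  obtain ⟨x, i, rfl⟩ := exists_el u
  obtain ⟨j, hj, hY⟩ := exists_LM Y x i
  exact ⟨⟨(x, j), hj⟩, Quotient.sound hY⟩

theorem c_le_sum (Y : Setoid (Fin (4 * g))) :
    c Y ≤ ∑ x : Fin g, ∑ i : Fin 4, ii (LM Y (x, i)) := by
  classical
  rw [c_eq_card, ← card_LM, ← Nat.card_eq_fintype_card]
  exact Nat.card_le_card_of_surjective _ (toQ_surjective Y)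

theorem c_lt_sum (Y : Setoid (Fin (4 * g))) {x x' : Fin g} {i i' : Fin 4} (hx : x ≠ x')
    (h : Y (el x i) (el x' i')) :
    c Y + 1 ≤ ∑ x : Fin g, ∑ i : Fin 4, ii (LM Y (x, i)) := by
  classical
  obtain ⟨j, hj, hY⟩ := exists_LM Y x i
  obtain ⟨j', hj', hY'⟩ := exists_LM Y x' i'
  have h1 : ¬ Function.Injective (toQ Y) := by
    intro hinj
    have : toQ Y ⟨(x, j), hj⟩ = toQ Y ⟨(x', j'), hj'⟩ :=
      Quotient.sound (Y.trans' hY (Y.trans' h (Y.symm' hY')))
    have := hinj this
    simp only [Subtype.mk.injEq, Prod.mk.injEq] at this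
    exact hx this.1
  rw [c_eq_card, ← card_LM, Nat.card_eq_fintype_card]
  exact Fintype.card_lt_of_surjective_not_injective _ (toQ_surjective Y) h1

end Count

end Pool.Agent.Y403.PM
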