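import Pool.Agent.Y403.PM.Inst

/-!
# The optimal value of the instance
-/

set_option autoImplicit false

namespace Pool.Agent.Y403.PM

open Module Pool.Agent.NPC Pool.Agent.H619R2.PM

/-- total cost of the clauses -/
noncomputable def DD (φ : List Cl) (Y : Setoid (Fin (4 * ng φ))) : ℕ :=
  (φ.zipIdx.map (fun p => cost (4 * ng φ) (cls (4 * ng φ) (3 * φ.length + p.2) p.1) Y)).sum

theorem cost_inst (φ : List Cl) (Y : Setoid (Fin (4 * ng φ))) :
    cost (4 * ng φ) (inst φ) Y = 5 * mu φ * dist ⊥ Y +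
      ((16 * mu φ * φ.length + 8 * φ.length) * dist ⊤ Y +
        (cost (4 * ng φ) ((List.range (ng φ)).flatMap (gp (4 * ng φ) (2 * mu φ))) Y + DD φ Y)) := by
  unfold inst DD
  rw [cost_append, cost_append, cost_append, cost_replicate, cost_replicate, part_range_id,
    part_zero, cost_flatMap' _ φ.zipIdx]

theorem arith_ge {m μ C R dB dT G D : ℕ} (hB : dB + C = 4 * (4 * m)) (hT : dT + 1 = C)
    (hG : G + (4 * m) * (2 * μ * (2 * C + 4)) = (4 * m) * (2 * μ * (2 * (4 * (4 * m)))) +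
      2 * (2 * μ) * R) (hD : m * (8 * (4 * (4 * m)) + 8) + 2 ≤ D + m * (8 * C))
    (hR : 5 * C ≤ 6 * (4 * m) + 4 * R) :
    8 * μ * m + 256 * μ * m * m + 128 * m * m + 2 ≤
      5 * μ * dB + ((16 * μ * m + 8 * m) * dT + (G + D)) := by
  have h1 := congrArg (fun t => μ * t) hB
  have h2 := congrArg (fun t => (16 * μ * m + 8 * m) * t) hT
  have h3 := Nat.mul_le_mul_left μ hR
  beta_reduce at h1 h2
  nlinarith

theorem arith_bad {m μ C R dB dT G D : ℕ} (hμ : μ = 22 * m + 1) (hB : dB + C = 4 * (4 * m))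
    (hT : dT + 1 = C)
    (hG : G + (4 * m) * (2 * μ * (2 * C + 4)) = (4 * m) * (2 * μ * (2 * (4 * (4 * m)))) +
      2 * (2 * μ) * R) (hD : m * (8 * (4 * (4 * m))) ≤ D + m * (8 * C + 14))
    (hR : 5 * C + 1 ≤ 6 * (4 * m) + 4 * R) :
    8 * μ * m + 256 * μ * m * m + 128 * m * m + 1 ≤
      5 * μ * dB + ((16 * μ * m + 8 * m) * dT + (G + D)) := by
  have h1 := congrArg (fun t => μ * t) hB
  have h2 := congrArg (fun t => (16 * μ * m + 8 * m) * t) hT
  have h3 := Nat.mul_le_mul_left μ hR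
  beta_reduce at h1 h2
  nlinarith

theorem arith_le {m μ C R dB dT G D : ℕ} (hB : dB + C = 4 * (4 * m)) (hT : dT + 1 = C)
    (hG : G + (4 * m) * (2 * μ * (2 * C + 4)) = (4 * m) * (2 * μ * (2 * (4 * (4 * m)))) +
      2 * (2 * μ) * R) (hD : D + m * (8 * C) ≤ m * (8 * (4 * (4 * m)) + 8))
    (hC : C = 8 * m) (hR : R ≤ 4 * m) :
    5 * μ * dB + ((16 * μ * m + 8 * m) * dT + (G + D)) ≤
      8 * μ * m + 256 * μ * m * m + 128 * m * m := by
  have h1 := congrArg (fun t => μ * t) hB
  have h2 := congrArg (fun t => (16 * μ * m + 8 * m) * t) hT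
  have h3 := Nat.mul_le_mul_left μ hR
  have h4 := congrArg (fun t => μ * t) hC
  beta_reduce at h1 h2 h4
  nlinarith

/-- the assignment, extended to the variables of the clauses -/
def ext (φ : List Cl) (τ : ℕ → Bool) (x : ℕ) : Bool :=
  if x < 3 * φ.length then τ x else
    match φ[x - 3 * φ.length]? with
    | some c => (τ c.1.2 == c.1.1) && (τ c.2.1.2 == c.2.1.1) && (τ c.2.2.2 == c.2.2.1)
    | none => false

theorem mem_zip {φ : List Cl} {p : Cl × ℕ} (h : p ∈ φ.zipIdx) :
    p.1 ∈ φ ∧ p.2 < φ.length ∧ φ[p.2]? = some p.1 := by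
  rw [List.mem_zipIdx_iff_getElem?] at h
  exact ⟨List.mem_of_getElem? h, (List.getElem?_eq_some_iff.1 h).1, h⟩

theorem pos_of {φ : List Cl} (h : φ ≠ []) : 0 < φ.length := List.length_pos_iff.2 h

/-- A satisfying assignment gives a cheap partition. -/
theorem upper (φ : List Cl) (hd : Distinct3 φ) (hb : Bounded3 φ) (hne : φ ≠ []) (τ : ℕ → Bool)
    (hτ : ∀ c ∈ φ, Tr τ c) :
    cost (4 * ng φ) (inst φ) (part _ (vst (ng φ) (ext φ τ))) ≤ thr φ := by
  have hpos := pos_of hne
  have hg : 0 < ng φ := by unfold ng; omega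
  have hY := isSt_vst (ng φ) (ext φ τ)
  set Y := part (4 * ng φ) (vst (ng φ) (ext φ τ)) with hYdef
  have cY := Gad.IsSt.c_eq _ hY
  rw [Nat.card_eq_fintype_card, Fintype.card_fin] at cY
  have : Nonempty (Fin (4 * ng φ)) := ⟨⟨0, by omega⟩⟩
  have hB := dist_bot' Y
  have hT := dist_top Y
  have hG := cost_groups (2 * mu φ) Y
  rw [Nat.card_eq_fintype_card, Fintype.card_fin] at hB
  -- the states
  have hab : ∀ (t : Bool) {x : ℕ} (hx : x < ng φ), ext φ τ x = t → Y (vs t hx) (va hx) := by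
    intro t x hx ht
    cases t with
    | true => exact Y.symm' (Gad.IsSt.ab _ hY (x := ⟨x, hx⟩) ht)
    | false => exact Gad.IsSt.da _ hY (x := ⟨x, hx⟩) ht
  have hR : ∑ x : Fin (ng φ), RR Y x ≤ ng φ := by
    have key : ∀ x : Fin (ng φ), RR Y x ≤ 1 := by
      intro x
      unfold RR rho
      cases hx : ext φ τ x with
      | true =>
        have k1 : Y (el x 0) (el x 1) := Gad.IsSt.ab _ hY (x := x) hx
        have k2 : Y (el x 2) (el x 3) := Gad.IsSt.cd _ hY (x := x) hx
        rw [ii_neg (not_not.2 k1), ii_neg (not_not.2 (Or.inl k2)),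
          ii_neg (P := ¬ (Y (el x 3) (el x 0) ∨ (Y (el x 3) (el x 1) ∧ Y (el x 0) (el x 2)) ∨
            (Y (el x 3) (el x 2) ∧ Y (el x 0) (el x 1))))
            (not_not.2 (Or.inr (Or.inr ⟨Y.symm' k2, k1⟩)))]
        have := ii_le (¬ Y (el x 1) (el x 2))
        omega
      | false =>
        have k1 : Y (el x 1) (el x 2) := Gad.IsSt.bc _ hY (x := x) hx
        have k2 : Y (el x 3) (el x 0) := Gad.IsSt.da _ hY (x := x) hx
        rw [ii_neg (not_not.2 k1), ii_neg (P := ¬ (Y (el x 3) (el x 0) ∨ _)) (not_not.2 (Or.inl k2)),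
          ii_neg (P := ¬ (Y (el x 2) (el x 3) ∨ (Y (el x 2) (el x 0) ∧ Y (el x 3) (el x 1)) ∨
            (Y (el x 2) (el x 1) ∧ Y (el x 3) (el x 0))))
            (not_not.2 (Or.inr (Or.inr ⟨Y.symm' k1, k2⟩)))]
        have := ii_le (¬ Y (el x 0) (el x 1))
        omega
    have h := Finset.sum_le_sum (fun x (_ : x ∈ (Finset.univ : Finset (Fin (ng φ)))) => key x)
    rw [Finset.sum_const, Finset.card_univ, Fintype.card_fin, smul_eq_mul, mul_one] at h
    exact h
  have hD : DD φ Y + φ.length * (8 * c Y) ≤ φ.length * (8 * (4 * ng φ) + 8) := by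
    have h := sum_le' φ.zipIdx (fun p => cost (4 * ng φ)
      (cls (4 * ng φ) (3 * φ.length + p.2) p.1) Y) (8 * (4 * ng φ) + 8) (8 * c Y) (by
      intro p hp
      obtain ⟨h1, h2, h3⟩ := mem_zip hp
      obtain ⟨b1, b2, b3⟩ := hb p.1 h1
      obtain ⟨n12, n13, n23⟩ := hd p.1 h1
      have e : ∀ x, x < 3 * φ.length → ext φ τ x = τ x := fun x hx => if_pos hx
      refine cost_cls_le Y (ext φ τ) (by unfold ng; omega) (by unfold ng; omega)
        (by unfold ng; omega) (by unfold ng; omega) n12 n13 n23 (by omega) (by omega) (by omega)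
        (fun t {x} hx => hab t hx) ?_ ?_
      · have := hτ p.1 h1
        unfold Tr at this ⊢
        rwa [e _ b1, e _ b2, e _ b3]
      · rw [e _ b1, e _ b2, e _ b3]
        unfold ext
        rw [if_neg (by omega)]
        rw [show 3 * φ.length + p.2 - 3 * φ.length = p.2 by omega, h3])
    rw [List.length_zipIdx] at h
    exact h
  rw [cost_inst]
  unfold thr
  unfold ng at *
  exact arith_le hB hT hG hD (by omega) hR

/-- A partition that does not give a satisfying assignment is expensive. -/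
theorem lower (φ : List Cl) (hd : Distinct3 φ) (hb : Bounded3 φ) (hne : φ ≠ [])
    (Y : Setoid (Fin (4 * ng φ))) (τ : ℕ → Bool)
    (hτY : ∀ x : Fin (ng φ), τ x = true ↔ Y (el x 0) (el x 1))
    (hτ : ∃ c ∈ φ, ¬ Tr τ c) : thr φ < cost (4 * ng φ) (inst φ) Y := by
  have hpos := pos_of hne
  have hg : 0 < ng φ := by unfold ng; omega
  have : Nonempty (Fin (4 * ng φ)) := ⟨⟨0, by omega⟩⟩
  have hB := dist_bot' Y
  have hT := dist_top Y
  have hG := cost_groups (2 * mu φ) Y
  rw [Nat.card_eq_fintype_card, Fintype.card_fin] at hB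
  rw [cost_inst]
  unfold thr
  by_cases hgood : Rsp Y ∧ ∀ x, GSt Y x
  · obtain ⟨hR, hst⟩ := hgood
    have hab : ∀ (t : Bool) {x : ℕ} (hx : x < ng φ), Y (vs t hx) (va hx) → τ x = t := by
      intro t x hx h
      have k0 := hτY ⟨x, hx⟩
      have k1 := hst ⟨x, hx⟩
      cases t with
      | true => exact k0.2 (Y.symm' h)
      | false =>
        have h' : Y (el ⟨x, hx⟩ 3) (el ⟨x, hx⟩ 0) := h
        cases hx' : τ x with
        | false => rfl
        | true =>
          exfalso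
          have hab := k0.1 hx'
          rcases k1 with ⟨_, k3, k4⟩ | ⟨k2, _, k4⟩
          · exact k4 (Y.symm' (Y.trans' k3 h'))
          · exact k4 (Y.trans' hab k2)
    have hall : ∀ p ∈ φ.zipIdx, 8 * (4 * ng φ) + 8 ≤
        cost (4 * ng φ) (cls (4 * ng φ) (3 * φ.length + p.2) p.1) Y + 8 * c Y ∧
        (¬ Tr τ p.1 → 8 * (4 * ng φ) + 8 + 2 ≤
          cost (4 * ng φ) (cls (4 * ng φ) (3 * φ.length + p.2) p.1) Y + 8 * c Y) := by
      intro p hp
      obtain ⟨h1, h2, h3⟩ := mem_zip hp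
      obtain ⟨b1, b2, b3⟩ := hb p.1 h1
      obtain ⟨n12, n13, n23⟩ := hd p.1 h1
      exact cost_cls_ge Y τ (by unfold ng; omega) (by unfold ng; omega)
        (by unfold ng; omega) (by unfold ng; omega) n12 n13 n23 (by omega) (by omega) (by omega)
        hR (fun t {x} hx => hab t hx)
    have hD := sum_gt' φ.zipIdx (fun p => cost (4 * ng φ)
      (cls (4 * ng φ) (3 * φ.length + p.2) p.1) Y) (8 * (4 * ng φ) + 8) (8 * c Y)
      (fun p hp => (hall p hp).1) (by
        obtain ⟨cc, hc, hc'⟩ := hτ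
        obtain ⟨i, hi⟩ := List.getElem?_of_mem hc
        exact ⟨(cc, i), List.mem_zipIdx_iff_getElem?.2 hi,
          (hall _ (List.mem_zipIdx_iff_getElem?.2 hi)).2 hc'⟩)
    rw [List.length_zipIdx] at hD
    have hle := main_le Y
    have hD' : φ.length * (8 * (4 * ng φ) + 8) + 2 ≤ DD φ Y + φ.length * (8 * c Y) := hD
    unfold ng at *
    have := arith_ge hB hT hG hD' hle
    omega
  · have hlt := main_lt Y hgood
    have hD := sum_ge' φ.zipIdx (fun p => cost (4 * ng φ)
      (cls (4 * ng φ) (3 * φ.length + p.2) p.1) Y) (8 * (4 * ng φ)) (8 * c Y + 14) (by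
      intro p hp
      obtain ⟨h1, h2, h3⟩ := mem_zip hp
      obtain ⟨b1, b2, b3⟩ := hb p.1 h1
      obtain ⟨n12, n13, n23⟩ := hd p.1 h1
      have := cost_cls Y (W := 3 * φ.length + p.2) (cc := p.1) (by unfold ng; omega)
        (by unfold ng; omega)
        (by unfold ng; omega) (by unfold ng; omega) n12 n13 n23 (by omega) (by omega) (by omega)
      omega)
    rw [List.length_zipIdx] at hD
    have hD' : φ.length * (8 * (4 * ng φ)) ≤ DD φ Y + φ.length * (8 * c Y + 14) := hD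
    unfold ng at *
    have := arith_bad (μ := mu φ) rfl hB hT hG hD' hlt
    omega

end Pool.Agent.Y403.PM
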